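import Mathlib

/-!
# Nesting of additive MRD codes

An additive MRD code in `M_4(F_2)` with minimum distance `2` which contains no additive MRD code
with minimum distance `3`.
-/

set_option autoImplicit false

namespace Pool.Agent.Results.MP_e73581_co.Nesting

open Matrix Finset

/-- The code `C` of `n × n` matrices over `F` has minimum rank distance `d`: the value `d` is
attained by two distinct codewords, and distinct codewords are at rank distance at least `d`. -/
def HasMinDist {F : Type} [Field F] {n : ℕ} (C : Set (Matrix (Fin n) (Fin n) F)) (d : ℕ) : Prop :=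
  (∃ A ∈ C, ∃ B ∈ C, A ≠ B ∧ (A - B).rank = d) ∧
    ∀ A ∈ C, ∀ B ∈ C, A ≠ B → d ≤ (A - B).rank

/-- The additive code `C` in `M_n(F)` is an MRD code with minimum distance `d`: it has minimum
distance `d` and `q ^ (n (n - d + 1))` elements, where `q` is the order of `F`. -/
def IsAdditiveMRD {F : Type} [Field F] {n : ℕ} (C : AddSubgroup (Matrix (Fin n) (Fin n) F))
    (d : ℕ) : Prop :=
  HasMinDist (C : Set (Matrix (Fin n) (Fin n) F)) d ∧
    Nat.card C = Nat.card F ^ (n * (n - d + 1))

/-- 4 by 4 matrices over the field with two elements -/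
abbrev M := Matrix (Fin 4) (Fin 4) (ZMod 2)

/-- vectors of length 4 -/
abbrev V := Fin 4 → ZMod 2

/-- the trace form, entrywise -/
def ip (A B : M) : ZMod 2 := ∑ i, ∑ j, A i j * B i j

theorem ip_add_left (A A' B : M) : ip (A + A') B = ip A B + ip A' B := by
  simp only [ip, Matrix.add_apply, add_mul, Finset.sum_add_distrib]

theorem ip_add_right (A B B' : M) : ip A (B + B') = ip A B + ip A B' := by
  simp only [ip, Matrix.add_apply, mul_add, Finset.sum_add_distrib]

theorem ip_smul_right (c : ZMod 2) (A B : M) : ip A (c • B) = c * ip A B := by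
  simp only [ip, Matrix.smul_apply, smul_eq_mul, Finset.mul_sum]
  refine Finset.sum_congr rfl fun i _ => Finset.sum_congr rfl fun j _ => by ring

theorem ip_smul_left (c : ZMod 2) (A B : M) : ip (c • A) B = c * ip A B := by
  simp only [ip, Matrix.smul_apply, smul_eq_mul, Finset.mul_sum]
  refine Finset.sum_congr rfl fun i _ => Finset.sum_congr rfl fun j _ => by ring

/-- a basis of a semifield spread set of order 16 -/
def Bs : Fin 4 → M := ![
  !![1, 0, 0, 0; 0, 1, 0, 0; 0, 0, 1, 0; 0, 0, 0, 1],
  !![0, 1, 0, 0; 1, 1, 0, 0; 0, 0, 0, 1; 0, 0, 1, 1],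
  !![0, 1, 1, 0; 0, 0, 0, 1; 1, 0, 1, 1; 0, 1, 0, 1],
  !![0, 0, 0, 1; 0, 1, 1, 1; 0, 1, 0, 1; 1, 1, 1, 0]]

/-- the elements of the spread set -/
def sp (t : V) : M := ∑ k, t k • Bs k

/-- the map whose kernel is the code -/
def phi : M →ₗ[ZMod 2] V where
  toFun A := fun k => ip A (Bs k)
  map_add' A B := by funext k; exact ip_add_left A B (Bs k)
  map_smul' c A := by funext k; exact ip_smul_left c A (Bs k)

/-- the code: the dual of the spread set -/
def C0 : AddSubgroup M := (LinearMap.ker phi).toAddSubgroup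

theorem mem_C0 {A : M} : A ∈ C0 ↔ ∀ k, ip A (Bs k) = 0 := by
  show phi A = 0 ↔ _
  rw [funext_iff]
  rfl

/-! ### cardinality of the code -/

theorem phi_surj : Function.Surjective phi := by
  intro t
  refine ⟨Matrix.of fun i j => if j = 0 then t i else 0, ?_⟩
  funext k
  show ip _ (Bs k) = t k
  revert t k
  decide +kernel

theorem card_C0 : Nat.card C0 = 2 ^ 12 := by
  have h1 := LinearMap.finrank_range_add_finrank_ker phi
  rw [LinearMap.range_eq_top.2 phi_surj, finrank_top] at h1
  have h2 : Module.finrank (ZMod 2) V = 4 := by simp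
  have h3 : Module.finrank (ZMod 2) M = 16 := by
    rw [Module.finrank_matrix]; simp
  have h4 : Module.finrank (ZMod 2) (LinearMap.ker phi) = 12 := by omega
  have h5 : Nat.card (LinearMap.ker phi) = Nat.card (ZMod 2) ^ 12 := by
    rw [← h4]; exact Module.natCard_eq_pow_finrank
  rw [Nat.card_zmod] at h5
  exact h5

/-! ### no rank one matrices in the code -/

theorem no_rank_one_aux : ∀ u v : V, (∀ k, ip (Matrix.vecMulVec u v) (Bs k) = 0) →
    u = 0 ∨ v = 0 := by
  decide +kernel

theorem two_le_rank {A : M} (hA : A ∈ C0) (h0 : A ≠ 0) : 2 ≤ A.rank := by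
  by_contra hlt
  have h1 : Module.finrank (ZMod 2) (LinearMap.range A.mulVecLin) ≤ 1 := by
    have : A.rank ≤ 1 := by omega
    exact this
  obtain ⟨u, hu⟩ := finrank_le_one_iff.1 h1
  have h2 : ∀ w : V, ∃ c : ZMod 2, c • u.1 = A *ᵥ w := by
    intro w
    obtain ⟨c, hc⟩ := hu ⟨A.mulVecLin w, LinearMap.mem_range_self _ w⟩
    exact ⟨c, congrArg Subtype.val hc⟩
  choose c hc using h2
  have h3 : A = Matrix.vecMulVec u.1 (fun j => c (Pi.single j 1)) := by
    ext i j
    have := congrFun (hc (Pi.single j 1)) i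
    rw [Matrix.mulVec_single_one] at this
    rw [Matrix.vecMulVec_apply]
    have h4 : A.col j i = A i j := rfl
    rw [h4] at this
    rw [← this, Pi.smul_apply, smul_eq_mul, mul_comm]
  have h5 := mem_C0.1 hA
  rw [h3] at h5
  rcases no_rank_one_aux _ _ h5 with h | h
  · apply h0; rw [h3, h]; ext i j; simp [Matrix.vecMulVec_apply]
  · apply h0; rw [h3, h]; ext i j; simp [Matrix.vecMulVec_apply]

/-! ### matrices of rank at most two -/

theorem rank_two_le (a x b y : V) :
    (Matrix.vecMulVec a x + Matrix.vecMulVec b y : M).rank ≤ 2 := by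
  have h : (Matrix.vecMulVec a x + Matrix.vecMulVec b y : M)
      = (Matrix.of ![a, b])ᵀ * Matrix.of ![x, y] := by
    ext i j
    simp [Matrix.mul_apply, Matrix.vecMulVec_apply, Fin.sum_univ_two]
  rw [h]
  refine (Matrix.rank_mul_le_left _ _).trans ?_
  exact (Matrix.rank_le_width _)

theorem ip_rank_two (a x b y : V) (N : M) (hx : N *ᵥ x = 0) (hy : N *ᵥ y = 0) :
    ip (Matrix.vecMulVec a x + Matrix.vecMulVec b y) N = 0 := by
  have h1 : ∀ (a x : V), N *ᵥ x = 0 → ip (Matrix.vecMulVec a x) N = 0 := by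
    intro a x hx
    have : ip (Matrix.vecMulVec a x) N = ∑ i, a i * (N *ᵥ x) i := by
      simp only [ip, Matrix.vecMulVec_apply, Matrix.mulVec, dotProduct, Finset.mul_sum]
      refine Finset.sum_congr rfl fun i _ => Finset.sum_congr rfl fun j _ => by ring
    rw [this, hx]; simp
  rw [ip_add_left, h1 a x hx, h1 b y hy, add_zero]

/-! ### the covering property of the spread set -/

/-- the vector whose entries are the binary digits of `n` -/
def dec (n : ℕ) : V := fun i => if n.testBit i then 1 else 0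

theorem dec_xor (a b : ℕ) : dec (a ^^^ b) = dec a + dec b := by
  funext i
  show (if (a ^^^ b).testBit i then (1 : ZMod 2) else 0) =
    (if a.testBit i then 1 else 0) + (if b.testBit i then 1 else 0)
  rw [Nat.testBit_xor]
  cases a.testBit i <;> cases b.testBit i <;> decide

theorem exists_dec : ∀ v : V, ∃ n < 16, dec n = v := by
  decide +kernel

theorem dec_inj : ∀ a < 16, ∀ b < 16, dec a = dec b → a = b := by
  decide +kernel

theorem dec_zero : dec 0 = 0 := by
  funext i; simp [dec]

/-- the image of the vector `k` under the matrix with the columns `c0, c1, c2, c3` -/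
def app (c0 c1 c2 c3 k : ℕ) : ℕ :=
  (((if k.testBit 0 then c0 else 0) ^^^ (if k.testBit 1 then c1 else 0)) ^^^
    (if k.testBit 2 then c2 else 0)) ^^^ (if k.testBit 3 then c3 else 0)

theorem mulVec_dec (X : M) (c0 c1 c2 c3 : ℕ) (h0 : X.col 0 = dec c0) (h1 : X.col 1 = dec c1)
    (h2 : X.col 2 = dec c2) (h3 : X.col 3 = dec c3) (k : ℕ) :
    X *ᵥ dec k = dec (app c0 c1 c2 c3 k) := by
  have g : ∀ (b : Bool) (c : ℕ), dec (if b = true then c else 0)
      = (if b = true then (1 : ZMod 2) else 0) • dec c := by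
    intro b c
    cases b
    · simp [dec_zero]
    · simp
  unfold app
  rw [dec_xor, dec_xor, dec_xor, g, g, g, g, ← h0, ← h1, ← h2, ← h3]
  have d0 : dec k 0 = if k.testBit 0 = true then (1 : ZMod 2) else 0 := rfl
  have d1 : dec k 1 = if k.testBit 1 = true then (1 : ZMod 2) else 0 := rfl
  have d2 : dec k 2 = if k.testBit 2 = true then (1 : ZMod 2) else 0 := rfl
  have d3 : dec k 3 = if k.testBit 3 = true then (1 : ZMod 2) else 0 := rfl
  rw [← d0, ← d1, ← d2, ← d3]
  funext i
  simp only [Matrix.mulVec, dotProduct, Fin.sum_univ_four, Matrix.col_apply, Pi.add_apply,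
    Pi.smul_apply, smul_eq_mul]
  ring

/-- the columns of the elements of the spread set, packed -/
def SC : ℕ := 95634733632949565563021153168099266313755922857248544004980299480042773217280

/-- column `j` of the element `t` -/
def sc (t j : ℕ) : ℕ := (SC >>> (4 * (4 * t + j))) % 16

/-- division table, packed -/
def BIG : ℕ := 18805097896431722175710938350987197638564883813811244904453304938962798119683318110377622893521181860489111794266569060820700578368679765956700710755099079092314316272832420394751855661771891761606751591889229677058052329147041236335247355454927093077978827047973154316104177165933778138599337126136066867200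

/-- the index of the element of the spread set which sends `x` to `z` -/
def tb (x z : ℕ) : ℕ := (BIG >>> (4 * (16 * x + z))) % 16

theorem sc_spec : ∀ t < 16, ∀ j : Fin 4, (sp (dec t)).col j = dec (sc t j) := by
  decide +kernel

theorem tb_spec : ∀ x < 16, 0 < x → ∀ z < 16, tb x z < 16 ∧
    app (sc (tb x z) 0) (sc (tb x z) 1) (sc (tb x z) 2) (sc (tb x z) 3) x = z := by
  decide +kernel

/-- looks for a repetition among `g n, g (n-1), ..., g 1` -/
def go (g : ℕ → ℕ) : ℕ → ℕ → Bool
  | 0, _ => false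
  | n + 1, seen => if seen.testBit (g (n + 1)) then true else go g n (seen ||| (1 <<< g (n + 1)))

theorem go_spec (g : ℕ → ℕ) : ∀ n seen : ℕ, go g n seen = true →
    (∃ x, 0 < x ∧ x ≤ n ∧ seen.testBit (g x) = true) ∨
      ∃ x y, 0 < y ∧ y < x ∧ x ≤ n ∧ g x = g y := by
  intro n
  induction n with
  | zero => intro seen h; exact absurd h (by simp [go])
  | succ n ih =>
    intro seen h
    unfold go at h
    by_cases hs : seen.testBit (g (n + 1)) = true
    · exact Or.inl ⟨n + 1, by omega, le_refl _, hs⟩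
    · rw [if_neg hs] at h
      rcases ih _ h with ⟨x, h1, h2, h3⟩ | ⟨x, y, h1, h2, h3, h4⟩
      · rw [Nat.testBit_or, Bool.or_eq_true] at h3
        rcases h3 with h3 | h3
        · exact Or.inl ⟨x, h1, by omega, h3⟩
        · refine Or.inr ⟨n + 1, x, h1, by omega, le_refl _, ?_⟩
          rw [Nat.one_shiftLeft, Nat.testBit_two_pow] at h3
          simpa using h3
      · exact Or.inr ⟨x, y, h1, h2, by omega, h4⟩

/-- the finite check -/
theorem check : ∀ c1 < 16, ∀ c2 < 16, ∀ c3 < 16,
    go (fun x => tb x (app 0 c1 c2 c3 x)) 15 0 = true := by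
  decide +kernel

theorem app_lt : ∀ c1 < 16, ∀ c2 < 16, ∀ c3 < 16, ∀ x, app 0 c1 c2 c3 x < 16 := by
  intro c1 h1 c2 h2 c3 h3 x
  unfold app
  have h : ∀ (b : Bool) (c : ℕ), c < 16 → (if b = true then c else 0) < 2 ^ 4 := by
    intro b c hc; cases b <;> simp <;> omega
  have := Nat.xor_lt_two_pow (Nat.xor_lt_two_pow (Nat.xor_lt_two_pow
    (h (x.testBit 0) 0 (by omega)) (h (x.testBit 1) c1 h1)) (h (x.testBit 2) c2 h2))
    (h (x.testBit 3) c3 h3)
  omega

theorem sp_add (s t : V) : sp (s + t) = sp s + sp t := by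
  unfold sp
  rw [← Finset.sum_add_distrib]
  refine Finset.sum_congr rfl fun k _ => ?_
  rw [Pi.add_apply, add_smul]

theorem covering (X : M) : ∃ (t x y : V), x ≠ 0 ∧ y ≠ 0 ∧ x ≠ y ∧
    (X - sp t) *ᵥ x = 0 ∧ (X - sp t) *ᵥ y = 0 := by
  obtain ⟨t0, ht0, e0⟩ := exists_dec (X.col 0)
  set X' : M := X - sp (dec t0) with hX'
  have hc0 : X'.col 0 = dec 0 := by
    have h1 := sc_spec t0 ht0 0
    have h2 : sc t0 ((0 : Fin 4) : ℕ) = t0 := by
      have : ∀ t < 16, sc t ((0 : Fin 4) : ℕ) = t := by decide +kernel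
      exact this t0 ht0
    rw [h2] at h1
    funext i
    have h3 := congrFun h1 i
    have h4 := congrFun e0 i
    rw [Matrix.col_apply] at h3 h4 ⊢
    rw [hX', Matrix.sub_apply, h3, h4, sub_self, dec_zero, Pi.zero_apply]
  obtain ⟨c1, hc1, e1⟩ := exists_dec (X'.col 1)
  obtain ⟨c2, hc2, e2⟩ := exists_dec (X'.col 2)
  obtain ⟨c3, hc3, e3⟩ := exists_dec (X'.col 3)
  have hX := mulVec_dec X' 0 c1 c2 c3 hc0 e1.symm e2.symm e3.symm
  rcases go_spec _ 15 0 (check c1 hc1 c2 hc2 c3 hc3) with ⟨x, _, _, h⟩ | ⟨x, y, hy, hyx, hx, h⟩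
  · simp at h
  · have key : ∀ z : ℕ, 0 < z → z ≤ 15 →
        (X' - sp (dec (tb z (app 0 c1 c2 c3 z)))) *ᵥ dec z = 0 := by
      intro z hz hz'
      have h1 := tb_spec z (by omega) hz (app 0 c1 c2 c3 z) (app_lt c1 hc1 c2 hc2 c3 hc3 z)
      have h2 := mulVec_dec (sp (dec (tb z (app 0 c1 c2 c3 z)))) _ _ _ _
        (sc_spec _ h1.1 0) (sc_spec _ h1.1 1) (sc_spec _ h1.1 2) (sc_spec _ h1.1 3) z
      rw [Matrix.sub_mulVec, hX z, h2]
      have h3 := h1.2
      simp only [Fin.val_zero, Fin.val_one, Fin.isValue] at *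
      have e2' : ((2 : Fin 4) : ℕ) = 2 := rfl
      have e3' : ((3 : Fin 4) : ℕ) = 3 := rfl
      rw [e2', e3', h3, sub_self]
    refine ⟨dec t0 + dec (tb x (app 0 c1 c2 c3 x)), dec x, dec y, ?_, ?_, ?_, ?_, ?_⟩
    · intro h0
      have := dec_inj x (by omega) 0 (by omega) (by rw [h0, dec_zero])
      omega
    · intro h0
      have := dec_inj y (by omega) 0 (by omega) (by rw [h0, dec_zero])
      omega
    · intro h0
      have := dec_inj x (by omega) y (by omega) h0
      omega
    · rw [sp_add, ← sub_sub]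
      exact key x (by omega) hx
    · rw [sp_add, ← sub_sub, h]
      exact key y hy (by omega)

/-! ### the main theorem -/

theorem ip_sub_right (A B B' : M) : ip A (B - B') = ip A B - ip A B' := by
  simp only [ip, Matrix.sub_apply, mul_sub, Finset.sum_sub_distrib]

theorem ip_sp {A : M} (hA : A ∈ C0) (t : V) : ip A (sp t) = 0 := by
  have h := mem_C0.1 hA
  unfold sp
  rw [Fin.sum_univ_four]
  rw [ip_add_right, ip_add_right, ip_add_right, ip_smul_right, ip_smul_right, ip_smul_right,
    ip_smul_right, h 0, h 1, h 2, h 3]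
  simp

theorem ip_single (i j : Fin 4) (N : M) : ip (Matrix.single i j 1) N = N i j := by
  unfold ip
  rw [Finset.sum_eq_single i]
  · rw [Finset.sum_eq_single j]
    · simp
    · intro b _ hb
      rw [Matrix.single_apply_of_ne _ _ _ _ _ (by tauto), zero_mul]
    · intro h; exact absurd (Finset.mem_univ _) h
  · intro b _ hb
    refine Finset.sum_eq_zero fun c _ => ?_
    rw [Matrix.single_apply_of_ne _ _ _ _ _ (by tauto), zero_mul]
  · intro h; exact absurd (Finset.mem_univ _) h

theorem indep_aux : ∀ x y : V, x ≠ 0 → y ≠ 0 → x ≠ y →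
    ∀ c d : ZMod 2, (∀ j, c * x j + d * y j = 0) → c = 0 ∧ d = 0 := by
  decide +kernel

/-- an element of rank two of the code -/
def A0 : M := Matrix.vecMulVec ![1, 0, 0, 0] ![0, 0, 1, 0] +
  Matrix.vecMulVec ![0, 0, 1, 0] ![1, 0, 0, 0]

theorem A0_mem : A0 ∈ C0 := by
  rw [mem_C0]
  decide +kernel

theorem A0_ne : A0 ≠ 0 := by
  intro h
  have := congrFun (congrFun h 0) 2
  revert this
  decide +kernel

theorem isMRD_C0 : IsAdditiveMRD C0 2 := by
  refine ⟨⟨⟨A0, A0_mem, 0, C0.zero_mem, A0_ne, ?_⟩, ?_⟩, ?_⟩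
  · rw [sub_zero]
    refine le_antisymm (rank_two_le _ _ _ _) (two_le_rank A0_mem A0_ne)
  · intro A hA B hB hne
    exact two_le_rank (C0.sub_mem hA hB) (sub_ne_zero.2 hne)
  · rw [card_C0, Nat.card_zmod]

theorem card_M : Nat.card M = 2 ^ 16 := by
  have h3 : Module.finrank (ZMod 2) M = 16 := by
    rw [Module.finrank_matrix]; simp
  have h5 : Nat.card M = Nat.card (ZMod 2) ^ 16 := by
    rw [← h3]; exact Module.natCard_eq_pow_finrank
  rw [Nat.card_zmod] at h5
  exact h5

theorem card_V : Nat.card V = 2 ^ 4 := by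
  have h3 : Module.finrank (ZMod 2) V = 4 := by simp
  have h5 : Nat.card V = Nat.card (ZMod 2) ^ 4 := by
    rw [← h3]; exact Module.natCard_eq_pow_finrank
  rw [Nat.card_zmod] at h5
  exact h5

/-- the pairing of a subspace with all matrices -/
def pair (S : Submodule (ZMod 2) M) : M →ₗ[ZMod 2] Module.Dual (ZMod 2) S :=
  LinearMap.mk₂ (ZMod 2) (fun X (A : S) => ip A.1 X)
    (fun X X' A => ip_add_right A.1 X X')
    (fun c X A => ip_smul_right c A.1 X)
    (fun X A A' => ip_add_left A.1 A'.1 X)
    (fun c X A => ip_smul_left c A.1 X)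

theorem exists_dual (C' : AddSubgroup M) (hcard : Nat.card C' = 2 ^ 8) :
    ∃ X : M, (∀ A ∈ C', ip A X = 0) ∧ ∀ t, X ≠ sp t := by
  set S : Submodule (ZMod 2) M := AddSubgroup.toZModSubmodule 2 C' with hS
  have h1 : Module.finrank (ZMod 2) S = 8 := by
    have h : Nat.card S = Nat.card (ZMod 2) ^ Module.finrank (ZMod 2) S :=
      Module.natCard_eq_pow_finrank
    have h' : Nat.card S = 2 ^ 8 := hcard
    rw [h', Nat.card_zmod] at h
    exact (Nat.pow_right_injective (le_refl 2) h).symm
  have h2 := LinearMap.finrank_range_add_finrank_ker (pair S)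
  have h3 : Module.finrank (ZMod 2) M = 16 := by
    rw [Module.finrank_matrix]; simp
  have h4 : Module.finrank (ZMod 2) (LinearMap.range (pair S)) ≤ 8 := by
    refine (Submodule.finrank_le _).trans ?_
    rw [Subspace.dual_finrank_eq, h1]
  have h5 : 8 ≤ Module.finrank (ZMod 2) (LinearMap.ker (pair S)) := by omega
  have h6 : 2 ^ 8 ≤ Nat.card (LinearMap.ker (pair S)) := by
    have h : Nat.card (LinearMap.ker (pair S)) =
        Nat.card (ZMod 2) ^ Module.finrank (ZMod 2) (LinearMap.ker (pair S)) :=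
      Module.natCard_eq_pow_finrank
    rw [h, Nat.card_zmod]
    exact Nat.pow_le_pow_right (by omega) h5
  by_contra hcon
  push Not at hcon
  have h7 : ∀ X : LinearMap.ker (pair S), ∃ t, X.1 = sp t := by
    intro X
    refine hcon X.1 fun A hA => ?_
    have := X.2
    rw [LinearMap.mem_ker] at this
    exact LinearMap.congr_fun this ⟨A, hA⟩
  choose f hf using h7
  have h8 : Function.Injective f := by
    intro X Y hXY
    apply Subtype.ext
    rw [hf X, hf Y, hXY]
  have h9 := Nat.card_le_card_of_injective f h8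
  rw [card_V] at h9
  omega

theorem no_sub (C' : AddSubgroup M) (hle : C' ≤ C0) : ¬ IsAdditiveMRD C' 3 := by
  rintro ⟨⟨_, hmin⟩, hcard⟩
  rw [Nat.card_zmod] at hcard
  obtain ⟨X, hX, hXt⟩ := exists_dual C' hcard
  obtain ⟨t, x, y, hx, hy, hxy, h1, h2⟩ := covering X
  set N : M := X - sp t with hN
  have hN0 : N ≠ 0 := fun h => hXt t (sub_eq_zero.1 h)
  have hipN : ∀ A ∈ C', ip A N = 0 := by
    intro A hA
    rw [hN, ip_sub_right, hX A hA, ip_sp (hle hA), sub_zero]
  let F : C' × V × V → M := fun p =>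
    p.1.1 + (Matrix.vecMulVec p.2.1 x + Matrix.vecMulVec p.2.2 y)
  have hFinj : Function.Injective F := by
    rintro ⟨A, a, b⟩ ⟨A', a', b'⟩ h
    have h' : A.1 + (Matrix.vecMulVec a x + Matrix.vecMulVec b y)
      = A'.1 + (Matrix.vecMulVec a' x + Matrix.vecMulVec b' y) := h
    have h3 : A.1 - A'.1 = Matrix.vecMulVec (a' - a) x + Matrix.vecMulVec (b' - b) y := by
      rw [Matrix.sub_vecMulVec, Matrix.sub_vecMulVec]
      have : A.1 = A'.1 + (Matrix.vecMulVec a' x + Matrix.vecMulVec b' y) -
          (Matrix.vecMulVec a x + Matrix.vecMulVec b y) := by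
        rw [← h']; abel
      rw [this]; abel
    have h4 : A.1 = A'.1 := by
      by_contra hne
      have := hmin A.1 A.2 A'.1 A'.2 hne
      rw [h3] at this
      have := this.trans (rank_two_le _ _ _ _)
      omega
    rw [h4, sub_self] at h3
    have h5 : ∀ i, (a' - a) i = 0 ∧ (b' - b) i = 0 := by
      intro i
      refine indep_aux x y hx hy hxy _ _ fun j => ?_
      have := congrFun (congrFun h3 i) j
      rw [Matrix.add_apply, Matrix.vecMulVec_apply, Matrix.vecMulVec_apply] at this
      exact this.symm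
    have h6 : a = a' := by
      funext i
      exact (sub_eq_zero.1 (h5 i).1).symm
    have h7 : b = b' := by
      funext i
      exact (sub_eq_zero.1 (h5 i).2).symm
    rw [h6, h7, Subtype.ext h4]
  have hcards : Nat.card M ≤ Nat.card (C' × V × V) := by
    rw [Nat.card_prod, Nat.card_prod, hcard, card_V, card_M]
    norm_num
  have hsurj := (hFinj.bijective_of_nat_card_le hcards).2
  apply hN0
  ext i j
  obtain ⟨⟨A, a, b⟩, h⟩ := hsurj (Matrix.single i j 1)
  have h' : A.1 + (Matrix.vecMulVec a x + Matrix.vecMulVec b y) = Matrix.single i j 1 := h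
  rw [Matrix.zero_apply, ← ip_single i j N, ← h', ip_add_left, hipN A.1 A.2,
    ip_rank_two a x b y N h1 h2, add_zero]

/-- There is an additive MRD code of `4 × 4` matrices over the field with two elements with
minimum distance `2` which contains no additive MRD code with minimum distance `3`. -/
theorem result : ∃ C : AddSubgroup (Matrix (Fin 4) (Fin 4) (ZMod 2)),
    IsAdditiveMRD C 2 ∧ ∀ C' : AddSubgroup (Matrix (Fin 4) (Fin 4) (ZMod 2)),
      C' ≤ C → ¬ IsAdditiveMRD C' 3 :=
  ⟨C0, isMRD_C0, no_sub⟩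

end Pool.Agent.Results.MP_e73581_co.Nesting
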